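import Mathlib

set_option autoImplicit false

/-! Unit fraction equation `∑ 1/x + 1/(n ∏ x) = 1/n`: extension maps, strictness, residues mod 5. -/

namespace Pool.Agent.H76UF

/-- solutions, as finite sets -/
def Sol (n s : ℕ) : Set (Finset ℕ) :=
  {S | S.card = s ∧ (∀ x ∈ S, 1 < x) ∧
    ∑ x ∈ S, (1 : ℚ) / x + 1 / ((n : ℚ) * ((∏ x ∈ S, x : ℕ) : ℚ)) = 1 / n}

lemma prod_pos {S : Finset ℕ} (h : ∀ x ∈ S, 1 < x) : 0 < ∏ x ∈ S, x :=
  Finset.prod_pos (fun x hx => by have := h x hx; omega)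

lemma le_prod {S : Finset ℕ} (h : ∀ x ∈ S, 1 < x) {x : ℕ} (hx : x ∈ S) : x ≤ ∏ x ∈ S, x :=
  Nat.le_of_dvd (prod_pos h) (Finset.dvd_prod_of_mem (fun x : ℕ => x) hx)

lemma fin_aux (s : ℕ) : ∀ r c : ℚ, 0 ≤ c →
    {S : Finset ℕ | S.card = s ∧ (∀ x ∈ S, 1 < x) ∧
      ∑ x ∈ S, (1 : ℚ) / x + c / ((∏ x ∈ S, x : ℕ) : ℚ) = r}.Finite := by
  induction s with
  | zero =>
    intro r c _
    apply Set.Finite.subset (Set.finite_singleton (∅ : Finset ℕ))
    rintro S ⟨h, _⟩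
    exact Finset.card_eq_zero.mp h
  | succ s ih =>
    intro r c hc
    by_cases hr : 0 < r
    · apply Set.Finite.subset (Set.Finite.biUnion (Set.finite_Iic ⌈((s : ℚ) + 1 + c) / r⌉₊)
        (fun m _ => (ih (r - 1 / (m : ℚ)) (c / m) (by positivity)).image (insert m)))
      rintro S ⟨h1, h2, h3⟩
      have hne : S.Nonempty := by
        rw [← Finset.card_pos, h1]
        omega
      set m := S.min' hne with hm
      have hmS : m ∈ S := Finset.min'_mem S hne
      have hm1 : 1 < m := h2 m hmS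
      have hmpos : (0 : ℚ) < m := by exact_mod_cast (by omega : 0 < m)
      have hsum : ∑ x ∈ S, (1 : ℚ) / x ≤ S.card • ((1 : ℚ) / m) := by
        apply Finset.sum_le_card_nsmul
        intro x hx
        have h4 : m ≤ x := Finset.min'_le S x hx
        have h5 : (m : ℚ) ≤ x := by exact_mod_cast h4
        exact one_div_le_one_div_of_le hmpos h5
      have hprod : (m : ℚ) ≤ ((∏ x ∈ S, x : ℕ) : ℚ) := by exact_mod_cast le_prod h2 hmS
      have hc2 : c / ((∏ x ∈ S, x : ℕ) : ℚ) ≤ c / m := div_le_div_of_nonneg_left hc hmpos hprod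
      have hle : r ≤ ((s : ℚ) + 1 + c) / m := by
        rw [← h3]
        rw [h1, nsmul_eq_mul] at hsum
        have h6 : (((s + 1 : ℕ) : ℚ)) * (1 / m) + c / m = ((s : ℚ) + 1 + c) / m := by
          push_cast
          field_simp
        rw [← h6]
        exact add_le_add hsum hc2
      have hmB : m ≤ ⌈((s : ℚ) + 1 + c) / r⌉₊ := by
        have h7 : (m : ℚ) ≤ ((s : ℚ) + 1 + c) / r := by
          rw [le_div_iff₀ hr]
          rw [le_div_iff₀ hmpos] at hle
          linarith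
        have h8 : (m : ℚ) ≤ (⌈((s : ℚ) + 1 + c) / r⌉₊ : ℚ) := h7.trans (Nat.le_ceil _)
        exact_mod_cast h8
      refine Set.mem_biUnion (x := m) hmB ⟨S.erase m, ⟨?_, ?_, ?_⟩, Finset.insert_erase hmS⟩
      · rw [Finset.card_erase_of_mem hmS, h1]
        omega
      · intro x hx
        exact h2 x (Finset.mem_of_mem_erase hx)
      · have h9 : (1 : ℚ) / m + ∑ x ∈ S.erase m, (1 : ℚ) / x = ∑ x ∈ S, (1 : ℚ) / x :=
          Finset.add_sum_erase S (fun x : ℕ => (1 : ℚ) / x) hmS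
        have h10 : m * ∏ x ∈ S.erase m, x = ∏ x ∈ S, x :=
          Finset.mul_prod_erase S (fun x : ℕ => x) hmS
        have h11 : c / m / ((∏ x ∈ S.erase m, x : ℕ) : ℚ) = c / ((∏ x ∈ S, x : ℕ) : ℚ) := by
          rw [← h10, Nat.cast_mul, div_div]
        rw [h11]
        linarith
    · apply Set.Finite.subset (Set.finite_empty)
      rintro S ⟨h1, h2, h3⟩
      exfalso
      have hne : S.Nonempty := by
        rw [← Finset.card_pos, h1]
        omega
      have h4 : 0 < ∑ x ∈ S, (1 : ℚ) / x := by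
        apply Finset.sum_pos _ hne
        intro x hx
        have := h2 x hx
        have h5 : (0 : ℚ) < x := by exact_mod_cast (by omega : 0 < x)
        positivity
      have h6 : 0 ≤ c / ((∏ x ∈ S, x : ℕ) : ℚ) := by positivity
      linarith

lemma sol_finite (n s : ℕ) : (Sol n s).Finite := by
  apply Set.Finite.subset (fin_aux s (1 / (n : ℚ)) (1 / (n : ℚ)) (by positivity))
  rintro S ⟨h1, h2, h3⟩
  refine ⟨h1, h2, ?_⟩
  rw [div_div]
  exact h3

/-- one-step extension -/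
lemma ext_one {n s : ℕ} (hn : 1 ≤ n) {S : Finset ℕ} (hS : S ∈ Sol n s) :
    insert (n * (∏ x ∈ S, x) + 1) S ∈ Sol n (s + 1) ∧ (n * (∏ x ∈ S, x) + 1) ∉ S ∧
    ∀ x ∈ S, x < n * (∏ x ∈ S, x) + 1 := by
  obtain ⟨h1, h2, h3⟩ := hS
  have hlt : ∀ x ∈ S, x < n * (∏ x ∈ S, x) + 1 := by
    intro x hx
    have h4 := le_prod h2 hx
    have h5 : 1 * (∏ x ∈ S, x) ≤ n * (∏ x ∈ S, x) := Nat.mul_le_mul_right _ hn
    omega
  have hnot : (n * (∏ x ∈ S, x) + 1) ∉ S := fun h => absurd (hlt _ h) (lt_irrefl _)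
  have hP := prod_pos h2
  have hQ : 0 < n * (∏ x ∈ S, x) := Nat.mul_pos hn hP
  refine ⟨⟨?_, ?_, ?_⟩, hnot, hlt⟩
  · rw [Finset.card_insert_of_notMem hnot, h1]
  · intro x hx
    rcases Finset.mem_insert.mp hx with h | h
    · rw [h]
      omega
    · exact h2 x h
  · rw [Finset.sum_insert hnot, Finset.prod_insert hnot, ← h3]
    have hP' : ((∏ x ∈ S, x : ℕ) : ℚ) ≠ 0 := by exact_mod_cast hP.ne'
    have hn' : (n : ℚ) ≠ 0 := by exact_mod_cast (by omega : n ≠ 0)
    have hQ' : (n : ℚ) * ((∏ x ∈ S, x : ℕ) : ℚ) + 1 ≠ 0 := by positivity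
    set P := ∏ x ∈ S, x with hPdef
    have key : (1 : ℚ) / ((n * P + 1 : ℕ) : ℚ) + 1 / ((n : ℚ) * (((n * P + 1) * P : ℕ) : ℚ)) =
        1 / ((n : ℚ) * (P : ℚ)) := by
      push_cast
      field_simp
    linarith

/-- two-step extension -/
lemma ext_two {n s : ℕ} (hn : 1 ≤ n) {S : Finset ℕ} (hS : S ∈ Sol n s) {d e : ℕ} (hd : 1 ≤ d)
    (hde : d < e) (h : d * e = (n * (∏ x ∈ S, x)) ^ 2 + 1) :
    insert (n * (∏ x ∈ S, x) + d) (insert (n * (∏ x ∈ S, x) + e) S) ∈ Sol n (s + 2) ∧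
    ∏ x ∈ insert (n * (∏ x ∈ S, x) + d) (insert (n * (∏ x ∈ S, x) + e) S), x =
      (n * (∏ x ∈ S, x) + d) * ((n * (∏ x ∈ S, x) + e) * ∏ x ∈ S, x) := by
  obtain ⟨_, _, hlt⟩ := ext_one hn hS
  obtain ⟨h1, h2, h3⟩ := hS
  have hP := prod_pos h2
  have hQ : 0 < n * (∏ x ∈ S, x) := Nat.mul_pos hn hP
  have hnot1 : (n * (∏ x ∈ S, x) + e) ∉ S := by
    intro h4
    have := hlt _ h4
    omega
  have hnot2 : (n * (∏ x ∈ S, x) + d) ∉ insert (n * (∏ x ∈ S, x) + e) S := by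
    intro h4
    rcases Finset.mem_insert.mp h4 with h5 | h5
    · omega
    · have := hlt _ h5
      omega
  refine ⟨⟨?_, ?_, ?_⟩, ?_⟩
  · rw [Finset.card_insert_of_notMem hnot2, Finset.card_insert_of_notMem hnot1, h1]
  · intro x hx
    rcases Finset.mem_insert.mp hx with h4 | h4
    · rw [h4]
      omega
    · rcases Finset.mem_insert.mp h4 with h5 | h5
      · rw [h5]
        omega
      · exact h2 x h5
  · rw [Finset.sum_insert hnot2, Finset.sum_insert hnot1, Finset.prod_insert hnot2,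
      Finset.prod_insert hnot1, ← h3]
    have hP' : ((∏ x ∈ S, x : ℕ) : ℚ) ≠ 0 := by exact_mod_cast hP.ne'
    have hn' : (n : ℚ) ≠ 0 := by exact_mod_cast (by omega : n ≠ 0)
    set P := ∏ x ∈ S, x with hPdef
    have hQd : (n : ℚ) * (P : ℚ) + d ≠ 0 := by
      have : (0 : ℚ) < d := by exact_mod_cast hd
      positivity
    have hQe : (n : ℚ) * (P : ℚ) + e ≠ 0 := by
      have : (0 : ℚ) < e := by exact_mod_cast (by omega : 0 < e)
      positivity
    have hde' : (d : ℚ) * e = ((n : ℚ) * P) ^ 2 + 1 := by exact_mod_cast h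
    have key : (1 : ℚ) / ((n * P + d : ℕ) : ℚ) + (1 : ℚ) / ((n * P + e : ℕ) : ℚ) +
        1 / ((n : ℚ) * (((n * P + d) * ((n * P + e) * P) : ℕ) : ℚ)) = 1 / ((n : ℚ) * (P : ℚ)) := by
      push_cast
      field_simp
      linear_combination (-1 : ℚ) * hde'
    linarith
  · rw [Finset.prod_insert hnot2, Finset.prod_insert hnot1]

lemma sol_nonempty {n : ℕ} (hn : 1 ≤ n) (s : ℕ) : (Sol n s).Nonempty := by
  induction s with
  | zero => exact ⟨∅, by simp [Sol]⟩
  | succ s ih =>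
    obtain ⟨S, hS⟩ := ih
    exact ⟨_, (ext_one hn hS).1⟩

lemma pos_ncard {n : ℕ} (hn : 1 ≤ n) (s : ℕ) : 0 < (Sol n s).ncard :=
  (Set.ncard_pos (sol_finite n s)).mpr (sol_nonempty hn s)

/-- strict growth from a composite value of `Q ^ 2 + 1` -/
lemma strict {n s : ℕ} (hn : 1 ≤ n) {S : Finset ℕ} (hS : S ∈ Sol n s) {d e : ℕ} (hd : 1 < d)
    (hde : d < e) (h : d * e = (n * (∏ x ∈ S, x)) ^ 2 + 1) :
    (Sol n (s + 1)).ncard < (Sol n (s + 2)).ncard := by
  set g : Finset ℕ → Finset ℕ := fun U => insert (n * (∏ x ∈ U, x) + 1) U with hg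
  have hinj : Set.InjOn g (Sol n (s + 1)) := by
    intro U hU V hV hUV
    obtain ⟨_, hu1, hu2⟩ := ext_one hn hU
    obtain ⟨_, hv1, hv2⟩ := ext_one hn hV
    have hUV' : insert (n * (∏ x ∈ U, x) + 1) U = insert (n * (∏ x ∈ V, x) + 1) V := hUV
    have e1 : n * (∏ x ∈ U, x) + 1 = n * (∏ x ∈ V, x) + 1 := by
      have m1 : n * (∏ x ∈ U, x) + 1 ∈ insert (n * (∏ x ∈ V, x) + 1) V := by
        rw [← hUV']
        exact Finset.mem_insert_self _ _
      have m2 : n * (∏ x ∈ V, x) + 1 ∈ insert (n * (∏ x ∈ U, x) + 1) U := by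
        rw [hUV']
        exact Finset.mem_insert_self _ _
      rcases Finset.mem_insert.mp m1 with h1 | h1
      · exact h1
      · rcases Finset.mem_insert.mp m2 with h2 | h2
        · exact h2.symm
        · have h3 := hv2 _ h1
          have h4 := hu2 _ h2
          omega
    have e2 : (insert (n * (∏ x ∈ U, x) + 1) U).erase (n * (∏ x ∈ U, x) + 1) = U :=
      Finset.erase_insert hu1
    have e3 : (insert (n * (∏ x ∈ V, x) + 1) V).erase (n * (∏ x ∈ V, x) + 1) = V :=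
      Finset.erase_insert hv1
    rw [← e2, ← e3, hUV', e1]
  have hmaps : g '' (Sol n (s + 1)) ⊆ Sol n (s + 2) := by
    rintro _ ⟨U, hU, rfl⟩
    exact (ext_one hn hU).1
  obtain ⟨hT, hprod⟩ := ext_two hn hS (by omega) hde h
  obtain ⟨_, _, hltS⟩ := ext_one hn hS
  set Q := n * (∏ x ∈ S, x) with hQ
  set T := insert (Q + d) (insert (Q + e) S) with hTdef
  have hTle : ∀ x ∈ T, x ≤ Q + e := by
    intro x hx
    rcases Finset.mem_insert.mp hx with h4 | h4
    · omega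
    · rcases Finset.mem_insert.mp h4 with h5 | h5
      · omega
      · have := hltS x h5
        omega
  have hnotmem : T ∉ g '' (Sol n (s + 1)) := by
    rintro ⟨U, hU, hUT⟩
    obtain ⟨_, hu1, hu2⟩ := ext_one hn hU
    have hUT' : insert (n * (∏ x ∈ U, x) + 1) U = T := hUT
    have m1 : Q + e ∈ insert (n * (∏ x ∈ U, x) + 1) U := by
      rw [hUT', hTdef]
      exact Finset.mem_insert_of_mem (Finset.mem_insert_self _ _)
    have m2 : n * (∏ x ∈ U, x) + 1 ≤ Q + e := by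
      apply hTle
      rw [← hUT']
      exact Finset.mem_insert_self _ _
    have e1 : n * (∏ x ∈ U, x) + 1 = Q + e := by
      rcases Finset.mem_insert.mp m1 with h1 | h1
      · exact h1.symm
      · have := hu2 _ h1
        omega
    have e2 : (n * (∏ x ∈ U, x) + 1) * ∏ x ∈ U, x = (Q + d) * ((Q + e) * ∏ x ∈ S, x) := by
      rw [← hprod, ← hUT', Finset.prod_insert hu1]
    have hpos : 0 < Q + e := by omega
    have e3 : ∏ x ∈ U, x = (Q + d) * ∏ x ∈ S, x := by
      rw [e1] at e2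
      have e4 : (Q + e) * ∏ x ∈ U, x = (Q + e) * ((Q + d) * ∏ x ∈ S, x) := by
        rw [e2]
        ring
      exact Nat.eq_of_mul_eq_mul_left hpos e4
    have e5 : n * (∏ x ∈ U, x) = (Q + d) * Q := by
      rw [e3, hQ]
      ring
    rw [e5] at e1
    -- (Q + d) * Q + 1 = Q + e, d * e = Q ^ 2 + 1, d ≥ 2
    have h6 : 2 * e ≤ d * e := Nat.mul_le_mul_right _ hd
    have h7 : 2 * Q ≤ d * Q := Nat.mul_le_mul_right _ hd
    nlinarith
  have hlt : (g '' (Sol n (s + 1))).ncard < (Sol n (s + 2)).ncard := by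
    apply Set.ncard_lt_ncard _ (sol_finite n (s + 2))
    exact ⟨hmaps, fun hh => hnotmem (hh hT)⟩
  rwa [Set.InjOn.ncard_image hinj] at hlt

end Pool.Agent.H76UF
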