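import Mathlib
import Pool.Agent.H76UF.A

set_option autoImplicit false

/-! Residues modulo 5 of `Q = n ∏ x` along the extensions. -/

namespace Pool.Agent.H76UF

/-- there is a solution of length `l` with `n ∏ x ≡ 2 (mod 5)` -/
def Good (n l : ℕ) : Prop := ∃ S ∈ Sol n l, (n * (∏ x ∈ S, x)) % 5 = 2

lemma ext_one' {n s : ℕ} (hn : 1 ≤ n) {S : Finset ℕ} (hS : S ∈ Sol n s) :
    ∃ S' ∈ Sol n (s + 1), n * (∏ x ∈ S', x) = (n * (∏ x ∈ S, x)) * (n * (∏ x ∈ S, x) + 1) := by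
  obtain ⟨h1, h2, _⟩ := ext_one hn hS
  refine ⟨_, h1, ?_⟩
  rw [Finset.prod_insert h2]
  ring

lemma ext_two' {n s : ℕ} (hn : 1 ≤ n) {S : Finset ℕ} (hS : S ∈ Sol n s) {d e : ℕ} (hd : 1 ≤ d)
    (hde : d < e) (h : d * e = (n * (∏ x ∈ S, x)) ^ 2 + 1) :
    ∃ S' ∈ Sol n (s + 2), n * (∏ x ∈ S', x) =
      (n * (∏ x ∈ S, x)) * (n * (∏ x ∈ S, x) + d) * (n * (∏ x ∈ S, x) + e) := by
  obtain ⟨h1, h2⟩ := ext_two hn hS hd hde h
  refine ⟨_, h1, ?_⟩
  rw [h2]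
  ring

lemma good_step {n l : ℕ} (hn : 1 ≤ n) (h : Good n l) : Good n (l + 2) := by
  obtain ⟨S, hS, hQ⟩ := h
  obtain ⟨S1, hS1, h1⟩ := ext_one' hn hS
  obtain ⟨S2, hS2, h2⟩ := ext_one' hn hS1
  refine ⟨S2, hS2, ?_⟩
  have e1 : (n * (∏ x ∈ S1, x)) % 5 = 1 := by
    rw [h1, Nat.mul_mod, Nat.add_mod, hQ]
  rw [h2, Nat.mul_mod, Nat.add_mod, e1]

lemma good_chain {n l : ℕ} (hn : 1 ≤ n) (h : Good n l) (k : ℕ) : Good n (l + 2 * k) := by
  induction k with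
  | zero => simpa using h
  | succ k ih =>
    have := good_step hn ih
    have e : l + 2 * (k + 1) = l + 2 * k + 2 := by ring
    rw [e]
    exact this

lemma good_flip {n l : ℕ} (hn : 1 ≤ n) {S : Finset ℕ} (hS : S ∈ Sol n l)
    (hQ : (n * (∏ x ∈ S, x)) % 5 = 2)
    (h : 25 ∣ (n * (∏ x ∈ S, x)) ^ 2 + 1 ∨ ∃ d, d % 5 = 2 ∧ d ∣ (n * (∏ x ∈ S, x)) ^ 2 + 1) :
    Good n (l + 3) := by
  set Q := n * (∏ x ∈ S, x) with hQdef
  rcases h with ⟨f, hf⟩ | ⟨d, hd, e, he⟩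
  · have hf2 : 2 ≤ f := by
      by_contra hlt
      have h0 : f = 0 ∨ f = 1 := by omega
      rcases h0 with h0 | h0
      · rw [h0] at hf
        omega
      · rw [h0] at hf
        have h1 : Q ^ 2 = 24 := by omega
        have h2 : Q < 5 := by nlinarith
        interval_cases Q <;> omega
    obtain ⟨S1, hS1, h1⟩ := ext_two' hn hS (d := 5) (e := 5 * f) (by omega) (by omega)
      (by rw [← hQdef, hf]; ring)
    rw [← hQdef] at h1
    obtain ⟨S2, hS2, h2⟩ := ext_one' hn hS1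
    refine ⟨S2, hS2, ?_⟩
    have e1 : (n * (∏ x ∈ S1, x)) % 5 = 3 := by
      rw [h1, Nat.mul_mod, Nat.mul_mod Q (Q + 5), Nat.add_mod Q 5, Nat.add_mod Q (5 * f), hQ]
      have : 5 * f % 5 = 0 := Nat.mul_mod_right 5 f
      rw [this]
    rw [h2, Nat.mul_mod, Nat.add_mod, e1]
  · have he5 : e % 5 = 0 := by
      have h1 : (Q ^ 2 + 1) % 5 = 0 := by
        rw [Nat.add_mod, Nat.pow_mod, hQ]
      rw [he, Nat.mul_mod, hd] at h1
      omega
    have hepos : 1 ≤ e := by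
      rcases Nat.eq_zero_or_pos e with h0 | h0
      · rw [h0] at he
        omega
      · exact h0
    have hne : d ≠ e := by
      intro h0
      rw [h0] at hd
      omega
    have hdpos : 1 ≤ d := by omega
    have key : ∃ S1 ∈ Sol n (l + 2), n * (∏ x ∈ S1, x) = Q * (Q + d) * (Q + e) := by
      rcases Nat.lt_or_ge d e with h0 | h0
      · exact ext_two' hn hS hdpos h0 (by rw [← hQdef, he])
      · obtain ⟨S1, hS1, h1⟩ := ext_two' hn hS (d := e) (e := d) hepos (by omega)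
          (by rw [← hQdef, he]; ring)
        refine ⟨S1, hS1, ?_⟩
        rw [h1, ← hQdef]
        ring
    obtain ⟨S1, hS1, h1⟩ := key
    obtain ⟨S2, hS2, h2⟩ := ext_one' hn hS1
    refine ⟨S2, hS2, ?_⟩
    have e1 : (n * (∏ x ∈ S1, x)) % 5 = 1 := by
      rw [h1, Nat.mul_mod, Nat.mul_mod Q (Q + d), Nat.add_mod Q d, Nat.add_mod Q e, hQ, hd, he5]
    rw [h2, Nat.mul_mod, Nat.add_mod, e1]

lemma strict_of_good {n l : ℕ} (hn : 1 ≤ n) (hl : 3 ≤ l) (h : Good n l) :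
    (Sol n (l + 1)).ncard < (Sol n (l + 2)).ncard := by
  obtain ⟨S, hS, hQ⟩ := h
  have hbig : 8 ≤ ∏ x ∈ S, x := by
    have h1 : 2 ^ S.card ≤ ∏ x ∈ S, x := by
      apply Finset.pow_card_le_prod
      intro x hx
      exact hS.2.1 x hx
    rw [hS.1] at h1
    have h2 : 2 ^ 3 ≤ 2 ^ l := Nat.pow_le_pow_right (by omega) hl
    omega
  have hQbig : 8 ≤ n * (∏ x ∈ S, x) := by
    calc 8 ≤ ∏ x ∈ S, x := hbig
      _ ≤ n * (∏ x ∈ S, x) := Nat.le_mul_of_pos_left _ hn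
  set Q := n * (∏ x ∈ S, x) with hQdef
  have h5 : (Q ^ 2 + 1) % 5 = 0 := by
    rw [Nat.add_mod, Nat.pow_mod, hQ]
  obtain ⟨e, he⟩ := Nat.dvd_of_mod_eq_zero h5
  have hlt : 5 < e := by nlinarith
  exact strict hn hS (d := 5) (e := e) (by omega) hlt (by rw [← hQdef, he])

/-- the starting solution -/
lemma base {n N : ℕ} (hn : 1 ≤ n)
    (hN : (n % 5 = 2 ∧ N = n) ∨ ((n % 5 = 1 ∨ n % 5 = 3) ∧ N = n * (n + 1))) :
    ∃ l, l = (if n % 5 = 2 then 0 else 1) ∧ ∃ S ∈ Sol n l, n * (∏ x ∈ S, x) = N ∧ N % 5 = 2 := by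
  have h0 : (∅ : Finset ℕ) ∈ Sol n 0 := by simp [Sol]
  rcases hN with ⟨h1, h2⟩ | ⟨h1, h2⟩
  · refine ⟨0, by simp [h1], ∅, h0, ?_, ?_⟩
    · simp [h2]
    · rw [h2]
      exact h1
  · have h3 : n % 5 ≠ 2 := by omega
    refine ⟨1, by simp [h3], ?_⟩
    obtain ⟨S1, hS1, h4⟩ := ext_one' hn h0
    refine ⟨S1, hS1, ?_, ?_⟩
    · rw [h4, h2]
      simp
    · rw [h2, Nat.mul_mod, Nat.add_mod]
      rcases h1 with h1 | h1 <;> rw [h1]

theorem half {n s : ℕ} (hn : 1 ≤ n) (hs : 4 ≤ s)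
    (h : (n % 5 = 2 ∧ s % 2 = 1) ∨ ((n % 5 = 1 ∨ n % 5 = 3) ∧ s % 2 = 0)) :
    (Sol n s).ncard < (Sol n (s + 1)).ncard := by
  have key : Good n (s - 1) := by
    rcases h with ⟨h1, h2⟩ | ⟨h1, h2⟩
    · obtain ⟨l, hl, S, hS, hSN, hN⟩ := base (n := n) (N := n) hn (Or.inl ⟨h1, rfl⟩)
      rw [if_pos h1] at hl
      subst hl
      have hg : Good n 0 := ⟨S, hS, by rw [hSN]; exact hN⟩
      have := good_chain hn hg ((s - 1) / 2)
      have e : 0 + 2 * ((s - 1) / 2) = s - 1 := by omega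
      rwa [e] at this
    · obtain ⟨l, hl, S, hS, hSN, hN⟩ := base (n := n) (N := n * (n + 1)) hn (Or.inr ⟨h1, rfl⟩)
      have h3 : n % 5 ≠ 2 := by omega
      rw [if_neg h3] at hl
      subst hl
      have hg : Good n 1 := ⟨S, hS, by rw [hSN]; exact hN⟩
      have := good_chain hn hg ((s - 2) / 2)
      have e : 1 + 2 * ((s - 2) / 2) = s - 1 := by omega
      rwa [e] at this
  have := strict_of_good hn (by omega) key
  have e1 : s - 1 + 1 = s := by omega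
  have e2 : s - 1 + 2 = s + 1 := by omega
  rwa [e1, e2] at this

theorem full {n N s : ℕ} (hn : 1 ≤ n) (hs : 4 ≤ s)
    (hN : (n % 5 = 2 ∧ N = n) ∨ ((n % 5 = 1 ∨ n % 5 = 3) ∧ N = n * (n + 1)))
    (h : 25 ∣ N ^ 2 + 1 ∨ ∃ d, d % 5 = 2 ∧ d ∣ N ^ 2 + 1) :
    (Sol n s).ncard < (Sol n (s + 1)).ncard := by
  obtain ⟨l, hl, S, hS, hSN, hN5⟩ := base hn hN
  have hl1 : l ≤ 1 := by
    rw [hl]
    split <;> omega
  have hg : Good n l := ⟨S, hS, by rw [hSN]; exact hN5⟩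
  have hf : Good n (l + 3) := good_flip hn hS (by rw [hSN]; exact hN5) (by rw [hSN]; exact h)
  have key : Good n (s - 1) := by
    rcases Nat.even_or_odd' (s - 1 - l) with ⟨k, hk | hk⟩
    · have := good_chain hn hg k
      have e : l + 2 * k = s - 1 := by omega
      rwa [e] at this
    · have := good_chain hn hf (k - 1)
      have e : l + 3 + 2 * (k - 1) = s - 1 := by omega
      rwa [e] at this
  have := strict_of_good hn (by omega) key
  have e1 : s - 1 + 1 = s := by omega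
  have e2 : s - 1 + 2 = s + 1 := by omega
  rwa [e1, e2] at this

theorem classes {n s : ℕ} (hn : 1 ≤ n) (hs : 4 ≤ s)
    (h : n % 10 = 7 ∨ n % 25 = 8 ∨ n % 25 = 11 ∨ n % 25 = 13 ∨ n % 25 = 16) :
    (Sol n s).ncard < (Sol n (s + 1)).ncard := by
  rcases h with h | h
  · refine full (N := n) hn hs (Or.inl ⟨by omega, rfl⟩) (Or.inr ⟨2, by norm_num, ?_⟩)
    apply Nat.dvd_of_mod_eq_zero
    rw [Nat.add_mod, Nat.pow_mod]
    have : n % 2 = 1 := by omega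
    rw [this]
  · have h5 : n % 5 = 1 ∨ n % 5 = 3 := by omega
    have hmod : (n * (n + 1)) % 25 = 22 ∨ (n * (n + 1)) % 25 = 7 := by
      rw [Nat.mul_mod, Nat.add_mod]
      rcases h with h | h | h | h <;> rw [h] <;> norm_num
    refine full (N := n * (n + 1)) hn hs (Or.inr ⟨h5, rfl⟩) ?_
    rcases hmod with hmod | hmod
    · right
      have h1 : ((n * (n + 1)) ^ 2 + 1) % 25 = 10 := by
        rw [Nat.add_mod, Nat.pow_mod, hmod]
      obtain ⟨f, hf⟩ : 5 ∣ (n * (n + 1)) ^ 2 + 1 := by omega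
      refine ⟨f, ?_, ⟨5, by rw [hf]; ring⟩⟩
      omega
    · left
      apply Nat.dvd_of_mod_eq_zero
      rw [Nat.add_mod, Nat.pow_mod, hmod]

end Pool.Agent.H76UF
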